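import Pool.Agent.U19.PM.Final

/-!
# COL-2PM is NP-complete

The problem asks for two disjoint perfect matchings `M₁` and `M₂` in a bipartite graph whose edges
have the colours `1` and `2`; all edges of `M₁` have to be of colour `1`. The reduction is from 3SAT.
Let `m` be the number of clauses and `L = 12 m`. For every variable `x` there are vertices
`(x, k)` in both classes, `k < L`, the edges of colour `1` at the vertex `(x, k)` of the first class
go to `(x, k - 1)` and `(x, k + 1)` modulo `L` if `k` is even, and to `(x, k - 1)` only if `k` is odd;
so there are exactly two possibilities for `M₁` at the variable. Edges of colour `2` join the two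
copies of `(x, k)`. For every clause there are vertices `α` and `β` in the two classes joined by an
edge of colour `1`, which has to be in `M₁`. For the occurrence number `i` of a literal of the
variable `x` in the clause, edges of colour `2` go from `α` to `(x, p)` and from `(x, 4 i + 1)` to
`β`, where `p = 4 i` or `p = 4 i + 2` according to the sign. If `α` is matched to `(x, p)` by `M₂`,
then `(x, p)` has to be matched to `(x, 4 i + 1)`, so this edge is not in `M₁`, and this means that
the literal is true.
-/

set_option autoImplicit false

namespace Pool.Agent.Results.MP_439cda_lc.NPComplete

open Pool.Agent.NPC Pool.Agent.NPC.U19.PM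

/-- COL-2PM is in `NP`, it is `NP`-hard under polynomial-time many-one reductions, and a
polynomial-time algorithm which decides it exists if and only if `P = NP`. -/
theorem result :
    InNPP Col2PM ∧ NPHardP Col2PM ∧
    ((∃ A : List Bool → List Bool, PolyTime A ∧
      ∀ I : Inst, IsInst I → (A (bits I) = [true] ↔ HasPair I.1 I.2.1 I.2.2.1 I.2.2.2)) ↔
    ∀ L : Set (List Bool), InNP L → InP L) :=
  ⟨inNPP_col2pm, hard_col2pm, decidable_iff⟩

end Pool.Agent.Results.MP_439cda_lc.NPComplete
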